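import Pool.Agent.Q35.TB.Stm
import Pool.Agent.Q190.TT.Lot

/-!
# Project TB (helper35), jobs LOX and LGX: the local inequalities with a general factor
-/

set_option autoImplicit false

open Pool.Agent.Y720.MZ

namespace Pool.Agent.Q190.TB.Lox

open Pool.Agent.Q35.TT Pool.Agent.Q35.TB
open Pool.Agent.Q190.TT.Lot (key)
open Pool.Agent.Q224.TT.Loc (II JJ tay0 tay1 tay2 tay3 bq1 bd0 bd1 dsc_scale id0 vnat vnat' mul2 vsub
  vsub' vII vJJ vII' vJJ' vquad vquad')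

/-- **LOX** -/
theorem lox (h : S_TRN) : S_LOX := by
  intro K _ _ v A A' B θ n hn hA hB hθ hA' h16 h137 _ _ hLB a m hm ha s hT
  have hv := v.nonneg
  obtain ⟨hg, y', hd, ht⟩ := key h a m s n hm hT
  obtain ⟨g, hgd⟩ : ∃ g : K, g = bq a ![1, s] := ⟨_, rfl⟩
  rw [← hgd] at hg ht
  have hM : 0 < v m := v.pos hm
  have hW : 0 < v g := v.pos hg
  have h3K : (3 : K) ≠ 0 := three_ne_zero
  have h3 : 0 < v 3 := v.pos h3K
  have h12K : (12 : K) ≠ 0 := by norm_num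
  have h12 : v 12 ≤ 12 := by exact_mod_cast vnat v 12
  have h8 : v 8 ≤ 8 := by exact_mod_cast vnat v 8
  have h6 : v 6 ≤ 6 := by exact_mod_cast vnat v 6
  have h3' : v 3 ≤ 3 := by exact_mod_cast vnat v 3
  have hb : v (-II a / (3 * m ^ 8)) ≤ A' := by
    rw [map_div₀, v.map_neg, map_mul, map_pow, div_le_iff₀ (by positivity)]
    refine (vII v a _ ha).trans ?_
    calc 16 * (A * v m ^ 4) ^ 2 = (16 * A ^ 2) * v m ^ 8 := by ring
      _ ≤ (A' * v 3) * v m ^ 8 := mul_le_mul_of_nonneg_right h16 (by positivity)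
      _ = A' * (v 3 * v m ^ 8) := by ring
  have hc : v (-JJ a / (27 * m ^ 12)) ≤ A' := by
    have h27 : v 27 = v 3 ^ 3 := by
      rw [← map_pow]
      norm_num
    rw [map_div₀, v.map_neg, map_mul, map_pow, h27, div_le_iff₀ (by positivity)]
    refine (vJJ v a _ ha).trans ?_
    calc 137 * (A * v m ^ 4) ^ 3 = (137 * A ^ 3) * v m ^ 12 := by ring
      _ ≤ (A' * v 3 ^ 3) * v m ^ 12 := mul_le_mul_of_nonneg_right h137 (by positivity)
      _ = A' * (v 3 ^ 3 * v m ^ 12) := by ring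
  have hx := hLB 0 _ _ _ y' g (by rw [map_zero]; exact hA') hb hc hd hg ht
  set H : K := 3 * tay a s 0 ^ 2 - 8 * g * tay a s 1 with hH
  have hN : (1 : ℝ) ≤ θ := hθ
  have hHle : v H ≤ 12 * B * θ * v g * v m ^ 4 := by
    rw [map_div₀, map_mul, map_pow v m, div_le_iff₀ (by
      have := v.pos h12K
      positivity)] at hx
    refine hx.trans ?_
    calc B * θ * v g * (v 12 * v m ^ 4) = v 12 * (B * θ * (v g * v m ^ 4)) := by ring
      _ ≤ 12 * (B * θ * (v g * v m ^ 4)) := mul_le_mul_of_nonneg_right h12 (by positivity)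
      _ = 12 * B * θ * v g * v m ^ 4 := by ring
  set S : ℝ := max 1 (v s) with hS
  have hS1 : 1 ≤ S := le_max_left _ _
  have hsS : v s ≤ S := le_max_right _ _
  have hS2 : 1 ≤ S ^ 2 := one_le_pow₀ hS1
  have hq2 : v (tay a s 1) ≤ 10 * (A * v m ^ 4) * S ^ 2 := by
    rw [tay1]
    have := vquad v (A * v m ^ 4) S hS1 s (a 2) (a 3) (a 4) 3 6 hsS (ha 2) (ha 3) (ha 4) 3 6 h3' h6
    linarith
  have he : v (6 * a 0 + 3 * a 1 * s + a 2 * s ^ 2) ≤ 10 * (A * v m ^ 4) * S ^ 2 := by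
    have e1 : v (6 * a 0) ≤ 6 * (A * v m ^ 4) := by
      rw [map_mul]
      exact mul2 (hv _) (hv _) h6 (ha 0)
    have e2 : v (3 * a 1 * s) ≤ 3 * (A * v m ^ 4) * S := by
      rw [map_mul, map_mul]
      exact mul2 (mul_nonneg (hv _) (hv _)) (hv _) (mul2 (hv _) (hv _) h3' (ha 1)) hsS
    have e3 : v (a 2 * s ^ 2) ≤ (A * v m ^ 4) * S ^ 2 := by
      rw [map_mul, map_pow]
      exact mul2 (hv _) (pow_nonneg (hv _) _) (ha 2) (pow_le_pow_left₀ (hv _) hsS 2)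
    have e4 := v.add_le (6 * a 0 + 3 * a 1 * s) (a 2 * s ^ 2)
    have e5 := v.add_le (6 * a 0) (3 * a 1 * s)
    have hP : 0 ≤ A * v m ^ 4 := by positivity
    have hSS : S ≤ S ^ 2 := by nlinarith
    have e6 : A * v m ^ 4 ≤ A * v m ^ 4 * S ^ 2 := le_mul_of_one_le_right hP hS2
    have e7 : 3 * (A * v m ^ 4) * S ≤ 3 * (A * v m ^ 4) * S ^ 2 := mul_le_mul_of_nonneg_left hSS (by positivity)
    linarith
  have hT0 : 0 ≤ A * v m ^ 4 * v g * S ^ 2 := by positivity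
  have hT1 : 0 ≤ 12 * B * θ * v g * v m ^ 4 := by positivity
  have f1 : A * v m ^ 4 * v g * S ^ 2 ≤ θ * (A * v m ^ 4 * v g * S ^ 2) :=
    le_mul_of_one_le_left hT0 hN
  have f2 : 12 * B * θ * v g * v m ^ 4 ≤ 12 * B * θ * v g * v m ^ 4 * S ^ 2 :=
    le_mul_of_one_le_right hT1 hS2
  have g8 : ∀ q : K, v q ≤ 10 * (A * v m ^ 4) * S ^ 2 → v (8 * g * q) ≤
      80 * (A * v m ^ 4 * v g * S ^ 2) := by
    intro q hq
    rw [map_mul, map_mul]
    have := mul2 (mul_nonneg (hv _) (hv _)) (hv _) (mul_le_mul_of_nonneg_right h8 hW.le) hq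
    linarith
  rw [← hgd]
  rw [Fin.forall_fin_two]
  constructor
  · have e1 : v 3 * v (bd a ![1, s] 0) ^ 2 = v (8 * g * (6 * a 0 + 3 * a 1 * s + a 2 * s ^ 2) + s ^ 2 * H) := by
      rw [← map_pow, ← map_mul, id0, ← hgd]
    rw [e1]
    refine (v.add_le _ _).trans ?_
    have e2 : v (s ^ 2 * H) ≤ S ^ 2 * (12 * B * θ * v g * v m ^ 4) := by
      rw [map_mul, map_pow]
      exact mul2 (pow_nonneg (hv _) _) (hv _) (pow_le_pow_left₀ (hv _) hsS 2) hHle
    have e3 := g8 _ he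
    nlinarith
  · have e1 : v 3 * v (bd a ![1, s] 1) ^ 2 = v (H + 8 * g * tay a s 1) := by
      rw [← map_pow, ← map_mul, bd1, hH]
      congr 1
      ring
    rw [e1]
    refine (v.add_le _ _).trans ?_
    have e3 := g8 _ hq2
    nlinarith

/-- **LGX** -/
theorem lgx (h : S_TRN) : S_LGX := by
  intro K _ _ v θ n hna h2 h3 hn hθ hLB a m hm ha s hT
  have hv := v.nonneg
  obtain ⟨hg, y', hd, ht⟩ := key h a m s n hm hT
  obtain ⟨g, hgd⟩ : ∃ g : K, g = bq a ![1, s] := ⟨_, rfl⟩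
  rw [← hgd] at hg ht
  have hM : 0 < v m := v.pos hm
  have hW : 0 < v g := v.pos hg
  have h12 : v 12 = 1 := by
    rw [show (12 : K) = 2 ^ 2 * 3 by norm_num, map_mul, map_pow, h2, h3]
    norm_num
  have h8 : v 8 ≤ 1 := by exact_mod_cast vnat' v hna 8
  have h6 : v 6 ≤ 1 := by exact_mod_cast vnat' v hna 6
  have hb : v (-II a / (3 * m ^ 8)) ≤ 1 := by
    rw [map_div₀, v.map_neg, map_mul, map_pow, h3, one_mul, div_le_iff₀ (by positivity), one_mul]
    refine (vII' v hna a _ ha).trans (le_of_eq ?_)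
    ring
  have hc : v (-JJ a / (27 * m ^ 12)) ≤ 1 := by
    have h27 : v 27 = 1 := by
      rw [show (27 : K) = 3 ^ 3 by norm_num, map_pow, h3, one_pow]
    rw [map_div₀, v.map_neg, map_mul, map_pow, h27, one_mul, div_le_iff₀ (by positivity), one_mul]
    refine (vJJ' v hna a _ ha).trans (le_of_eq ?_)
    ring
  have hx := hLB 0 _ _ _ y' g (by rw [map_zero]; exact zero_le_one) hb hc hd hg ht
  rw [one_mul] at hx
  set H : K := 3 * tay a s 0 ^ 2 - 8 * g * tay a s 1 with hH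
  have hHle : v H ≤ θ * v g * v m ^ 4 := by
    rw [map_div₀, map_mul, map_pow v m, h12, one_mul, div_le_iff₀ (by positivity)] at hx
    exact hx
  set S : ℝ := max 1 (v s) with hS
  have hS1 : 1 ≤ S := le_max_left _ _
  have hsS : v s ≤ S := le_max_right _ _
  have hS2 : 1 ≤ S ^ 2 := one_le_pow₀ hS1
  have hSS : S ≤ S ^ 2 := by nlinarith
  have hP : 0 ≤ v m ^ 4 := by positivity
  have hq2 : v (tay a s 1) ≤ v m ^ 4 * S ^ 2 := by
    rw [tay1]
    exact vquad' v hna (v m ^ 4) S hS1 s (a 2) (a 3) (a 4) 3 6 hsS (ha 2) (ha 3) (ha 4) h3.le h6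
  have he : v (6 * a 0 + 3 * a 1 * s + a 2 * s ^ 2) ≤ v m ^ 4 * S ^ 2 := by
    have e1 : v (6 * a 0) ≤ v m ^ 4 * S ^ 2 := by
      rw [map_mul]
      refine (mul2 (hv _) (hv _) h6 (ha 0)).trans ?_
      rw [one_mul]
      exact le_mul_of_one_le_right hP hS2
    have e2 : v (3 * a 1 * s) ≤ v m ^ 4 * S ^ 2 := by
      rw [map_mul, map_mul, h3, one_mul]
      exact mul2 (hv _) (hv _) (ha 1) (hsS.trans hSS)
    have e3 : v (a 2 * s ^ 2) ≤ v m ^ 4 * S ^ 2 := by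
      rw [map_mul, map_pow]
      exact mul2 (hv _) (pow_nonneg (hv _) _) (ha 2) (pow_le_pow_left₀ (hv _) hsS 2)
    exact (hna _ _).trans (max_le ((hna _ _).trans (max_le e1 e2)) e3)
  have hHle' : v H ≤ θ * v g * S ^ 2 * v m ^ 4 := by
    refine hHle.trans ?_
    rw [mul_right_comm _ (S ^ 2)]
    exact le_mul_of_one_le_right (by positivity) hS2
  have g8 : ∀ q : K, v q ≤ v m ^ 4 * S ^ 2 → v (8 * g * q) ≤ θ * v g * S ^ 2 * v m ^ 4 := by
    intro q hq
    rw [map_mul, map_mul]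
    have := mul2 (mul_nonneg (hv 8) (hv g)) (hv q) (mul_le_mul_of_nonneg_right h8 hW.le) hq
    rw [one_mul] at this
    refine this.trans ?_
    have h9 : v g * (v m ^ 4 * S ^ 2) ≤ θ * (v g * (v m ^ 4 * S ^ 2)) :=
      le_mul_of_one_le_left (by positivity) hθ
    refine h9.trans (le_of_eq ?_)
    ring
  rw [← hgd]
  rw [Fin.forall_fin_two]
  constructor
  · have e1 : v (bd a ![1, s] 0) ^ 2 = v (8 * g * (6 * a 0 + 3 * a 1 * s + a 2 * s ^ 2) + s ^ 2 * H) := by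
      rw [hH, hgd, ← id0, map_mul, map_pow, h3, one_mul]
    rw [e1]
    refine (hna _ _).trans (max_le (g8 _ he) ?_)
    rw [map_mul, map_pow]
    refine (mul2 (pow_nonneg (hv _) _) (hv _) (pow_le_pow_left₀ (hv _) hsS 2) hHle).trans (le_of_eq ?_)
    ring
  · have e1 : v (bd a ![1, s] 1) ^ 2 = v (H + 8 * g * tay a s 1) := by
      rw [bd1, ← map_pow, hH, sub_add_cancel, map_mul, h3, one_mul]
    rw [e1]
    exact (hna _ _).trans (max_le hHle' (g8 _ hq2))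

end Pool.Agent.Q190.TB.Lox
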