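import Pool.Agent.Q35.TB.Stm
import Pool.Agent.Q53.TT.NAR

/-!
# Project TB (helper35), jobs PRM and FGT: torsion points in the kernel of the reduction
-/

set_option autoImplicit false

open WeierstrassCurve Pool.Agent.Y720.MZ

namespace Pool.Agent.Q190.TB.Prm

open Pool.Agent.Q35.TT Pool.Agent.Q35.TB

variable {K : Type} [Field K] {v : AbsoluteValue K ℝ}

/-- two points close to the origin with the same parameter have the same abscissa -/
lemma inj_t (hv : IsNonarchimedean v) {a b c x₁ x₂ y₁ y₂ : K} (ha : v a ≤ 1)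
    (hb : v b ≤ 1) (hc : v c ≤ 1)
    (hx1 : 1 < v x₁) (hx2 : 1 < v x₂)
    (h1 : y₁ ^ 2 = x₁ ^ 3 + a * x₁ ^ 2 + b * x₁ + c)
    (h2 : y₂ ^ 2 = x₂ ^ 3 + a * x₂ ^ 2 + b * x₂ + c)
    (ht : x₁ / y₁ = x₂ / y₂) : x₁ = x₂ := by
  obtain ⟨hy1', h11, h12, h13, h14⟩ := val_ts hv ha hb hc hx1 h1
  obtain ⟨hy2', h21, h22, h23, h24⟩ := val_ts hv ha hb hc hx2 h2
  have q1 := ts_eqn hy1' h1
  have q2 := ts_eqn hy2' h2
  have e1 : x₁ / y₁ * y₁ = x₁ := div_mul_cancel₀ _ hy1'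
  have e1' : (1 / y₁) * y₁ = 1 := one_div_mul_cancel hy1'
  have e2' : (1 / y₂) * y₂ = 1 := one_div_mul_cancel hy2'
  have e2 : x₂ / y₂ * y₂ = x₂ := div_mul_cancel₀ _ hy2'
  rw [← ht] at q2 h22 h23 h24 e2
  set t := x₁ / y₁
  set s₁ := 1 / y₁
  set s₂ := 1 / y₂
  have ht0 := v.nonneg t
  have hs1 : v s₁ < 1 := by rw [h14]; exact pow_lt_one₀ ht0 h12 three_ne_zero
  have hs2 : v s₂ < 1 := by rw [h24]; exact pow_lt_one₀ ht0 h12 three_ne_zero
  have p3 := v.nonneg s₁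
  have p4 := v.nonneg s₂
  have hid : (s₁ - s₂) * (1 + (-(a * t ^ 2) - b * t * (s₁ + s₂) -
      c * (s₁ ^ 2 + s₁ * s₂ + s₂ ^ 2))) = 0 := by
    linear_combination q1 - q2
  have hU : v (1 + (-(a * t ^ 2) - b * t * (s₁ + s₂) - c * (s₁ ^ 2 + s₁ * s₂ + s₂ ^ 2))) = 1 := by
    apply na_one_add hv
    rw [sub_eq_add_neg, sub_eq_add_neg]
    refine na_lt hv (na_lt hv ?_ ?_) ?_
    · rw [v.map_neg, map_mul, map_pow]
      exact (mul_le_of_le_one_left (by positivity) ha).trans_lt (pow_lt_one₀ ht0 h12 two_ne_zero)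
    · have : v (s₁ + s₂) ≤ 1 := na_add hv hs1.le hs2.le
      rw [v.map_neg, map_mul, map_mul]
      calc v b * v t * v (s₁ + s₂) ≤ 1 * v t * 1 := by gcongr
        _ = v t := by ring
        _ < 1 := h12
    · have : v (s₁ ^ 2 + s₁ * s₂ + s₂ ^ 2) < 1 := by
        refine na_lt hv (na_lt hv ?_ ?_) ?_
        · rw [map_pow]
          exact pow_lt_one₀ p3 hs1 two_ne_zero
        · rw [map_mul]
          calc v s₁ * v s₂ ≤ v s₁ * 1 := by gcongr
            _ = v s₁ := mul_one _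
            _ < 1 := hs1
        · rw [map_pow]
          exact pow_lt_one₀ p4 hs2 two_ne_zero
      rw [v.map_neg, map_mul]
      exact (mul_le_of_le_one_left (v.nonneg _) hc).trans_lt this
  have hss : s₁ = s₂ := by
    rcases mul_eq_zero.1 hid with h | h
    · exact sub_eq_zero.1 h
    · rw [h, map_zero] at hU
      exact absurd hU zero_ne_one
  have hyy : y₁ = y₂ := by
    have : s₁ * y₁ = s₁ * y₂ := by rw [e1', hss, e2']
    exact mul_left_cancel₀ (left_ne_zero_of_mul_eq_one e1') this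
  rw [← e1, ← e2, hyy]

/-- `P` lies in the kernel of the reduction, with the parameter `t`. -/
def Nr (v : AbsoluteValue K ℝ) {a b c : K} (P : Pt a b c) (t : K) : Prop :=
  (P = 0 ∧ t = 0) ∨ ∃ x y h, P = .some x y h ∧ 1 < v x ∧ t = x / y

variable [DecidableEq K]

/-- The sum of two points in the kernel of the reduction. -/
theorem add_nr (hv : IsNonarchimedean v) {a b c : K} (ha : v a ≤ 1) (hb : v b ≤ 1)
    (hc : v c ≤ 1) (h22 : v (2 : K) = 1) {r : ℝ} (hr0 : 0 < r) (hr : r < 1) {P Q : Pt a b c}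
    {t s : K} (hP : Nr v P t) (hQ : Nr v Q s) (ht : v t ≤ r) (hs : v s ≤ r) :
    ∃ u, Nr v (P + Q) u ∧ v (u - t - s) ≤ r ^ 3 := by
  have hr3 : 0 ≤ r ^ 3 := by positivity
  rcases hP with ⟨rfl, rfl⟩ | ⟨x₁, y₁, h₁, rfl, hx₁, rfl⟩
  · exact ⟨s, by rwa [zero_add], by rw [sub_zero, sub_self, map_zero]; exact hr3⟩
  rcases hQ with ⟨rfl, rfl⟩ | ⟨x₂, y₂, h₂, rfl, hx₂, rfl⟩
  · exact ⟨x₁ / y₁, by rw [add_zero]; exact Or.inr ⟨x₁, y₁, h₁, rfl, hx₁, rfl⟩,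
      by rw [sub_self, sub_zero, map_zero]; exact hr3⟩
  have heq1 := (cv_ns.1 h₁).1
  have heq2 := (cv_ns.1 h₂).1
  obtain ⟨hy1, -, -, -, -⟩ := val_ts hv ha hb hc hx₁ heq1
  obtain ⟨hy2, -, -, -, -⟩ := val_ts hv ha hb hc hx₂ heq2
  have h20 : (2 : K) ≠ 0 := by
    intro h0
    rw [h0, map_zero] at h22
    exact zero_ne_one h22
  by_cases hxx : x₁ = x₂
  · subst hxx
    rcases eq_or_neg h₁ h₂ with h5 | h5
    · -- the tangent
      rw [Affine.Point.some.injEq] at h5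
      obtain ⟨-, h5⟩ := h5
      subst h5
      have hy2' : 2 * y₁ ≠ 0 := mul_ne_zero h20 hy1
      set ℓ := (3 * x₁ ^ 2 + 2 * a * x₁ + b) / (2 * y₁) with hℓ
      have hℓ' : ℓ * (2 * y₁) = 3 * x₁ ^ 2 + 2 * a * x₁ + b := div_mul_cancel₀ _ hy2'
      set ν := y₁ - ℓ * x₁ with hν
      have hyl : y₁ = ℓ * x₁ + ν := by rw [hν]; ring
      obtain ⟨hν0, b1, b2⟩ := tangent_bound hv ha hb hc h22 hx₁ heq1 hyl hℓ' ht
      obtain ⟨v1, v2⟩ := vieta_tangent heq1 hyl hℓ'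
      obtain ⟨w1, w2, w3⟩ := third_close hv ha hb hc (x₁ := x₁) (x₂ := x₁)
        (x₃ := ℓ ^ 2 - a - x₁ - x₁) (ℓ := ℓ) (ν := ν) (by ring) v1 v2 hr0 hr hν0 b1 b2
        (by rw [← hyl]; exact hy1) (by rw [← hyl]; exact hy1) (by rw [← hyl]; exact ht)
        (by rw [← hyl]; exact ht)
      obtain ⟨hns, hadd⟩ := dbl_mk h₁ hy2' hℓ'
      have e3 : -(ℓ * (ℓ ^ 2 - a - x₁ - x₁ - x₁) + y₁) = -(ℓ * (ℓ ^ 2 - a - x₁ - x₁) + ν) := by
        rw [hν]; ring
      refine ⟨_, Or.inr ⟨_, _, hns, hadd, ?_, rfl⟩, ?_⟩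
      · refine one_lt_of_y hv ha hb hc ?_ (cv_ns.1 hns).1
        rw [e3, v.map_neg]
        exact w2
      · rw [e3, div_neg]
        rw [← hyl] at w3
        have e4 : -((ℓ ^ 2 - a - x₁ - x₁) / (ℓ * (ℓ ^ 2 - a - x₁ - x₁) + ν)) - x₁ / y₁ - x₁ / y₁ =
            -((ℓ ^ 2 - a - x₁ - x₁) / (ℓ * (ℓ ^ 2 - a - x₁ - x₁) + ν) + x₁ / y₁ + x₁ / y₁) := by
          ring
        rw [e4, v.map_neg]
        exact w3
    · -- the opposite point
      refine ⟨0, Or.inl ⟨by rw [h5, neg_add_cancel], rfl⟩, ?_⟩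
      obtain ⟨h7, h8⟩ := neg_mk h₂
      rw [h8, Affine.Point.some.injEq] at h5
      rw [h5.2, div_neg, sub_neg_eq_add, zero_add, sub_self, map_zero]
      exact hr3
  · -- the chord
    have htt : x₁ / y₁ ≠ x₂ / y₂ := fun h => hxx (inj_t hv ha hb hc hx₁ hx₂ heq1 heq2 h)
    have hxx' : x₁ - x₂ ≠ 0 := sub_ne_zero.2 hxx
    set ℓ := (y₁ - y₂) / (x₁ - x₂) with hℓ
    have hℓ' : ℓ * (x₁ - x₂) = y₁ - y₂ := div_mul_cancel₀ _ hxx'
    set ν := y₁ - ℓ * x₁ with hν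
    have hyl1 : y₁ = ℓ * x₁ + ν := by rw [hν]; ring
    have hyl2 : y₂ = ℓ * x₂ + ν := by rw [hν]; linear_combination hℓ'
    obtain ⟨hν0, b1, b2⟩ := chord_bound hv ha hb hc hr0 hr hx₁ hx₂ hxx heq1 heq2 hyl1 hyl2 ht
      hs htt
    obtain ⟨v1, v2⟩ := vieta_chord hxx heq1 heq2 hyl1 hyl2
    obtain ⟨w1, w2, w3⟩ := third_close hv ha hb hc (x₁ := x₁) (x₂ := x₂)
      (x₃ := ℓ ^ 2 - a - x₁ - x₂) (ℓ := ℓ) (ν := ν) (by ring) v1 v2 hr0 hr hν0 b1 b2
      (by rw [← hyl1]; exact hy1) (by rw [← hyl2]; exact hy2) (by rw [← hyl1]; exact ht)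
      (by rw [← hyl2]; exact hs)
    obtain ⟨hns, hadd⟩ := add_mk h₁ h₂ hxx hℓ'
    have e3 : -(ℓ * (ℓ ^ 2 - a - x₁ - x₂ - x₁) + y₁) = -(ℓ * (ℓ ^ 2 - a - x₁ - x₂) + ν) := by
      rw [hν]; ring
    refine ⟨_, Or.inr ⟨_, _, hns, hadd, ?_, rfl⟩, ?_⟩
    · refine one_lt_of_y hv ha hb hc ?_ (cv_ns.1 hns).1
      rw [e3, v.map_neg]
      exact w2
    · rw [e3, div_neg]
      rw [← hyl1, ← hyl2] at w3
      have e4 : -((ℓ ^ 2 - a - x₁ - x₂) / (ℓ * (ℓ ^ 2 - a - x₁ - x₂) + ν)) - x₁ / y₁ - x₂ / y₂ =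
          -((ℓ ^ 2 - a - x₁ - x₂) / (ℓ * (ℓ ^ 2 - a - x₁ - x₂) + ν) + x₁ / y₁ + x₂ / y₂) := by
        ring
      rw [e4, v.map_neg]
      exact w3

/-- The multiples of a point in the kernel of the reduction. -/
theorem mul_nr (hv : IsNonarchimedean v) {a b c : K} (ha : v a ≤ 1) (hb : v b ≤ 1)
    (hc : v c ≤ 1) (h22 : v (2 : K) = 1) {r : ℝ} (hr0 : 0 < r) (hr : r < 1) {P : Pt a b c}
    {t : K} (hP : Nr v P t) (ht : v t ≤ r) (k : ℕ) :
    ∃ u, Nr v (k • P) u ∧ v (u - k * t) ≤ r ^ 3 := by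
  have hr3 : 0 ≤ r ^ 3 := by positivity
  have hr3r : r ^ 3 ≤ r := by
    calc r ^ 3 = r ^ 2 * r := by ring
      _ ≤ 1 * r := by gcongr; exact pow_le_one₀ hr0.le hr.le
      _ = r := one_mul r
  induction k with
  | zero =>
    refine ⟨0, Or.inl ⟨zero_smul _ _, rfl⟩, ?_⟩
    rw [Nat.cast_zero, zero_mul, sub_self, map_zero]
    exact hr3
  | succ k ih =>
    obtain ⟨u, hu, hut⟩ := ih
    have hur : v u ≤ r := by
      have e : u = (u - k * t) + k * t := by ring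
      rw [e]
      refine na_add hv (hut.trans hr3r) ?_
      rw [map_mul]
      exact (mul_le_of_le_one_left (v.nonneg t) (na_nat hv k)).trans ht
    obtain ⟨w, hw, hwt⟩ := add_nr hv ha hb hc h22 hr0 hr hu hP hur ht
    refine ⟨w, by rwa [succ_nsmul], ?_⟩
    have e : w - ((k + 1 : ℕ) : K) * t = (w - u - t) + (u - k * t) := by
      push_cast
      ring
    rw [e]
    exact na_add hv hwt hut

omit [DecidableEq K] in
theorem nr_zero {a b c u : K} (h : Nr v (0 : Pt a b c) u) : u = 0 := by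
  rcases h with ⟨-, h⟩ | ⟨x, y, hns, h, -⟩
  · exact h
  · exact absurd h.symm (Affine.Point.some_ne_zero hns)

/-- **PRM** -/
theorem prm : S_PRM := by
  intro K _ _ v hv h2 _ a b c x y ha hb hc n hn hT
  obtain ⟨h, hnP⟩ := hT
  by_contra hx
  push Not at hx
  letI : DecidableEq K := Classical.decEq K
  obtain ⟨hy, h1, h3, h4, h5⟩ := val_ts hv ha hb hc hx (cv_ns.1 h).1
  obtain ⟨u, hu, hut⟩ := mul_nr hv ha hb hc h2 h4 h3 (P := .some x y h) (t := x / y)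
    (Or.inr ⟨x, y, h, rfl, hx, rfl⟩) le_rfl n
  have hnP' : n • (.some x y h : Pt a b c) = 0 := hnP
  rw [hnP'] at hu
  rw [nr_zero hu, zero_sub, v.map_neg, map_mul, hn, one_mul] at hut
  have h6 : v (x / y) ^ 3 < v (x / y) := by
    calc v (x / y) ^ 3 = v (x / y) * v (x / y) ^ 2 := by ring
      _ < v (x / y) * 1 := mul_lt_mul_of_pos_left (pow_lt_one₀ h4.le h3 two_ne_zero) h4
      _ = v (x / y) := mul_one _
  linarith

/-- **FGT** -/
theorem fgt : S_FGT := by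
  intro K _ _ v hv p hp hp5 hp1 a b c x y e n ha hb hc hn he hT hx hxe
  have h22 : v (2 : K) = 1 := by
    have h := Pool.Agent.Q53.TT.NAR.unit_of_coprime hv hp1 (k := 2)
      ((Nat.coprime_primes Nat.prime_two hp).2 (by omega))
    exact_mod_cast h
  obtain ⟨h, hnP⟩ := hT
  refine ⟨h, ?_⟩
  letI : DecidableEq K := Classical.decEq K
  have hnP' : n • (.some x y h : Pt a b c) = 0 := hnP
  by_contra hcon
  have hcon' : p ^ e • (.some x y h : Pt a b c) ≠ 0 := hcon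
  obtain ⟨hy, h1, h3, h4, h5⟩ := val_ts hv ha hb hc hx (cv_ns.1 h).1
  set P : Pt a b c := .some x y h with hP
  set r : ℝ := v (x / y) with hr
  -- the points `p ^ j P`
  have hnz : ∀ j ≤ e, p ^ j • P ≠ 0 := by
    intro j hj h0
    apply hcon'
    rw [← Nat.sub_add_cancel hj, pow_add, mul_smul, h0, smul_zero]
  have htor : ∀ j, n • (p ^ j • P) = 0 := by
    intro j
    rw [smul_comm, hnP', smul_zero]
  have hfac : ∀ j ≤ e, ∀ u, Nr v (p ^ j • P) u → v u < 1 ∧ 0 < v u ∧ v (p : K) ≤ v u ^ 2 := by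
    intro j hj u hu
    rcases hu with ⟨h0, -⟩ | ⟨x', y', h', h6, hx', rfl⟩
    · exact absurd h0 (hnz j hj)
    · obtain ⟨hy', h1', h3', h4', h5'⟩ := val_ts hv ha hb hc hx' (cv_ns.1 h').1
      have h7 := htor j
      rw [h6] at h7
      have h8 := Pool.Agent.Q53.TT.NAR.int_bound hv hp hp1 ha hb hc hn ⟨h', h7⟩
      refine ⟨h3', h4', ?_⟩
      have h9 : 0 < v x' := one_pos.trans hx'
      rw [← h1'] at h8
      by_contra hcon2
      push Not at hcon2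
      have : v (x' / y') ^ 2 * v x' < v (p : K) * v x' := mul_lt_mul_of_pos_right hcon2 h9
      linarith
  have key : ∀ j ≤ e, ∃ u, Nr v (p ^ j • P) u ∧ v u ≤ r ^ (2 ^ j) := by
    intro j
    induction j with
    | zero =>
      intro _
      refine ⟨x / y, ?_, ?_⟩
      · rw [pow_zero, one_smul]
        exact Or.inr ⟨x, y, h, rfl, hx, rfl⟩
      · rw [pow_zero, pow_one]
    | succ j ih =>
      intro hj
      obtain ⟨u, hu, hur⟩ := ih (by omega)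
      obtain ⟨f1, f2, f3⟩ := hfac j (by omega) u hu
      obtain ⟨w, hw, hwt⟩ := mul_nr hv ha hb hc h22 f2 f1 hu le_rfl p
      refine ⟨w, by rwa [pow_succ', mul_smul], ?_⟩
      have h32 : v u ^ 3 ≤ v u ^ 2 := pow_le_pow_of_le_one f2.le f1.le (by norm_num)
      have hw2 : v w ≤ v u ^ 2 := by
        have e1 : w = (w - p * u) + p * u := by ring
        rw [e1]
        refine na_add hv (hwt.trans h32) ?_
        rw [map_mul]
        calc v (p : K) * v u ≤ v u ^ 2 * 1 := by gcongr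
          _ = v u ^ 2 := mul_one _
      calc v w ≤ v u ^ 2 := hw2
        _ ≤ (r ^ (2 ^ j)) ^ 2 := by gcongr
        _ = r ^ (2 ^ (j + 1)) := by rw [← pow_mul, pow_succ]
  obtain ⟨u, hu, hur⟩ := key e le_rfl
  obtain ⟨f1, f2, f3⟩ := hfac e le_rfl u hu
  have h6 : v (p : K) ≤ r ^ (2 ^ (e + 1)) := by
    calc v (p : K) ≤ v u ^ 2 := f3
      _ ≤ (r ^ (2 ^ e)) ^ 2 := by gcongr
      _ = r ^ (2 ^ (e + 1)) := by rw [← pow_mul, pow_succ]
  have h7 : r ^ (2 * e) ≤ v (p : K) := by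
    calc r ^ (2 * e) = r ^ (2 * e) * 1 := (mul_one _).symm
      _ ≤ r ^ (2 * e) * (v x ^ e * v (p : K)) := by gcongr
      _ = (r ^ 2 * v x) ^ e * v (p : K) := by rw [mul_pow, ← pow_mul]; ring
      _ = v (p : K) := by rw [h1, one_pow, one_mul]
  have h8 : 2 * e < 2 ^ (e + 1) := by
    have := Nat.lt_two_pow_self (n := e)
    rw [pow_succ]
    omega
  have h9 : r ^ (2 ^ (e + 1)) < r ^ (2 * e) := pow_lt_pow_right_of_lt_one₀ h4 h3 h8
  linarith

end Pool.Agent.Q190.TB.Prm
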